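import Pool.Agent.R248.LineSum.Main

/-!
Problem MP_ca1982_an, Q1: there is a compact subset of the unit square which meets every line
meeting the unit square and all of whose iterated sumsets are nowhere dense.
-/

set_option autoImplicit false

namespace Pool.Agent.Results.MP_ca1982_an.AllSumsetsNowhereDense

open Set

/-- The closed unit square. -/
def unitSquare : Set (ℝ × ℝ) := {z | 0 ≤ z.1 ∧ z.1 ≤ 1 ∧ 0 ≤ z.2 ∧ z.2 ≤ 1}

/-- The `l`-fold sumset `K + ⋯ + K`. -/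
def sumset (l : ℕ) (K : Set (ℝ × ℝ)) : Set (ℝ × ℝ) :=
  {z | ∃ f : Fin l → ℝ × ℝ, (∀ i, f i ∈ K) ∧ z = ∑ i, f i}

/-- There is a compact set `K` in the unit square such that `K` meets every line (one-dimensional
affine subspace of the plane) which meets the unit square and, for every `l ≥ 1`, the `l`-fold
sumset of `K` is nowhere dense. -/
theorem result : ∃ K : Set (ℝ × ℝ), IsCompact K ∧ K ⊆ unitSquare ∧
    (∀ L : AffineSubspace ℝ (ℝ × ℝ), Module.finrank ℝ L.direction = 1 →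
      ((L : Set (ℝ × ℝ)) ∩ unitSquare).Nonempty → ((L : Set (ℝ × ℝ)) ∩ K).Nonempty) ∧
    ∀ l : ℕ, 1 ≤ l → IsNowhereDense (sumset l K) := by
  refine ⟨Pool.Agent.R248.LineSum.K, Pool.Agent.R248.LineSum.isCompact_K, ?_, ?_,
    fun l _ => Pool.Agent.R248.LineSum.nowhereDense_sumset l⟩
  · rintro z ⟨⟨⟨h1, h2⟩, h3, h4⟩, -⟩
    exact ⟨h1, h2, h3, h4⟩
  · rintro L hL ⟨p, hpL, h1, h2, h3, h4⟩
    obtain ⟨v, hv0, -⟩ := finrank_eq_one_iff'.1 hL
    have hv : (v : ℝ × ℝ) ≠ 0 := fun h => hv0 (Subtype.ext h)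
    obtain ⟨t, ht⟩ := Pool.Agent.R248.LineSum.meets p v ⟨⟨h1, h2⟩, h3, h4⟩ hv
    refine ⟨p + t • (v : ℝ × ℝ), ?_, ht⟩
    have h5 : t • (v : ℝ × ℝ) ∈ L.direction := L.direction.smul_mem t v.2
    have h6 := AffineSubspace.vadd_mem_of_mem_direction h5 hpL
    rw [vadd_eq_add, add_comm] at h6
    exact h6

end Pool.Agent.Results.MP_ca1982_an.AllSumsetsNowhereDense
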